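import Mathlib

open Set Filter Topology

namespace Pool.Agent.H.MP_53fbd4_an

variable {X : Type*} [NormedAddCommGroup X] [NormedSpace ℝ X]

lemma weak_nhds {V : Set (WeakSpace ℝ X)} (hV : IsOpen V) {v : X} (hv : toWeakSpace ℝ X v ∈ V) :
    ∃ (I : Finset (X →L[ℝ] ℝ)) (δ : ℝ), 0 < δ ∧
      ∀ y : X, ‖(fun i : I => i.1 y) - (fun i : I => i.1 v)‖ < δ → toWeakSpace ℝ X y ∈ V := by
  obtain ⟨O, hO, rfl⟩ := isOpen_induced_iff.1 hV
  obtain ⟨I, u, h1, h2⟩ := isOpen_pi_iff.1 hO _ hv
  have h3 : IsOpen {p : I → ℝ | ∀ i : I, p i ∈ u i.1} := by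
    rw [ofPred_forall]
    exact isOpen_iInter_of_finite fun i => (h1 i.1 i.2).1.preimage (continuous_apply i)
  obtain ⟨δ, d1, d2⟩ := Metric.isOpen_iff.1 h3 (fun i : I => i.1 v) fun i => (h1 i.1 i.2).2
  refine ⟨I, δ, d1, fun y hy => h2 fun i hi => ?_⟩
  exact d2 (mem_ball_iff_norm.2 hy) ⟨i, hi⟩

theorem main (e : ℕ → X) (he : ∀ x : X, ∃! a : ℕ → ℝ, HasSum (fun n => a n • e n) x)
    (hun : ∀ (s : Finset ℕ) (a ε : ℕ → ℝ), (∀ n, ε n = 1 ∨ ε n = -1) →
      ‖∑ n ∈ s, (ε n * a n) • e n‖ ≤ ‖∑ n ∈ s, a n • e n‖) :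
    ∃ U : ℕ → Set (WeakSpace ℝ X),
      (∀ n, IsOpen (U n) ∧ ∃ y : X, ‖y‖ ≤ 1 ∧ toWeakSpace ℝ X y ∈ U n) ∧
      ∀ V : Set (WeakSpace ℝ X), IsOpen V → ∀ v : X, ‖v‖ ≤ 1 → toWeakSpace ℝ X v ∈ V →
        ∃ n, ∀ y : X, ‖y‖ ≤ 1 → toWeakSpace ℝ X y ∈ U n → toWeakSpace ℝ X y ∈ V := by
  classical
  choose a ha hu using he
  beta_reduce at ha hu
  have hadd : ∀ x y, a (x + y) = a x + a y := fun x y =>
    (hu _ _ (by simpa [add_smul] using (ha x).add (ha y))).symm
  have hsm : ∀ (c : ℝ) x, a (c • x) = c • a x := fun c x =>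
    (hu _ _ (by simpa [smul_smul] using (ha x).const_smul c)).symm
  have hfin : ∀ (A : Finset ℕ) (c : ℕ → ℝ),
      a (∑ i ∈ A, c i • e i) = fun i => if i ∈ A then c i else 0 := by
    intro A c
    refine (hu _ _ ?_).symm
    have := hasSum_sum_of_ne_finset_zero (f := fun i => (if i ∈ A then c i else 0) • e i) (s := A)
      (L := .unconditional ℕ) (fun i hi => by simp [hi])
    rwa [Finset.sum_congr rfl fun i hi => by rw [if_pos hi]] at this
  have hne : ∀ i, e i ≠ 0 := by
    intro i hi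
    have h1 := congrFun (hfin {i} fun _ => 1) i
    have h2 := congrFun (hfin ∅ fun _ => 1) i
    simp [hi] at h1 h2
    exact one_ne_zero (h1.symm.trans h2)
  let π : Finset ℕ → X →ₗ[ℝ] X := fun A =>
    { toFun := fun x => ∑ i ∈ A, a x i • e i
      map_add' := fun x y => by simp [hadd, add_smul, Finset.sum_add_distrib]
      map_smul' := fun c x => by simp [hsm, Finset.smul_sum, smul_smul] }
  have hπ : ∀ A x, π A x = ∑ i ∈ A, a x i • e i := fun _ _ => rfl
  have hrep : ∀ (A : Finset ℕ) x, (∀ i ∉ A, a x i = 0) → π A x = x := fun A x h =>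
    (hasSum_sum_of_ne_finset_zero (fun i hi => by simp [h i hi])).unique (ha x)
  have hzero : ∀ (A : Finset ℕ) x, (∀ i ∈ A, a x i = 0) → π A x = 0 := fun A x h =>
    Finset.sum_eq_zero fun i hi => by simp [h i hi]
  have refl : ∀ A y, ‖y - (2:ℝ) • π A y‖ ≤ ‖y‖ := by
    intro A y
    have t1 : Tendsto (fun s : Finset ℕ => ∑ i ∈ s, a y i • e i) atTop (𝓝 y) := ha y
    refine le_of_tendsto_of_tendsto (t1.sub_const ((2:ℝ) • π A y)).norm t1.norm ?_
    filter_upwards [eventually_ge_atTop A] with s hA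
    refine le_trans (le_of_eq ?_) (hun s (a y) (fun i => if i ∈ A then -1 else 1)
      (fun i => by split_ifs <;> simp))
    congr 1
    rw [hπ, ← Finset.sum_sdiff hA, ← Finset.sum_sdiff hA, Finset.smul_sum, add_sub_assoc,
      ← Finset.sum_sub_distrib]
    congr 1
    · exact Finset.sum_congr rfl fun i hi => by rw [if_neg (Finset.mem_sdiff.1 hi).2, one_mul]
    · exact Finset.sum_congr rfl fun i hi => by rw [if_pos hi]; module
  have sup2 : ∀ A y, ‖π A y‖ ≤ ‖y‖ := by
    intro A y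
    have : (2:ℝ) • (π A y) = y - (y - (2:ℝ) • π A y) := by module
    have h1 := norm_sub_le y (y - (2:ℝ) • π A y)
    rw [← this, norm_smul, Real.norm_two] at h1
    linarith [refl A y]
  let c : ℕ → X →L[ℝ] ℝ := fun i => LinearMap.mkContinuous
    { toFun := fun x => a x i
      map_add' := fun x y => by simp [hadd]
      map_smul' := fun c x => by simp [hsm] } (1 / ‖e i‖) (fun x => by
      have := sup2 {i} x
      rw [hπ, Finset.sum_singleton, norm_smul] at this
      rw [div_mul_eq_mul_div, le_div_iff₀ (norm_pos_iff.2 (hne i)), one_mul]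
      exact this)
  let U : X → ℕ → ℕ → Set (WeakSpace ℝ X) := fun d N m =>
    {y | ‖π (Finset.range N) ((toWeakSpace ℝ X).symm y) - d‖ < 1 / ((m:ℝ) + 1)}
  have hopen : ∀ d N m, IsOpen (U d N m) := by
    intro d N m
    refine isOpen_lt (Continuous.norm (Continuous.sub ?_ continuous_const)) continuous_const
    simp only [hπ]
    refine continuous_finsetSum _ fun i _ => Continuous.smul ?_ continuous_const
    exact WeakBilin.eval_continuous (topDualPairing ℝ X).flip (c i)
  obtain ⟨D, hD, hY⟩ := (countable_range e).isSeparable.span (R := ℝ)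
  obtain ⟨u, hu'⟩ := (hD.insert 0).exists_eq_range (insert_nonempty _ _)
  obtain ⟨en, hen⟩ := exists_surjective_nat (ℕ × ℕ × ℕ)
  let U' : ℕ → Set (WeakSpace ℝ X) := fun n =>
    if ∃ y : X, ‖y‖ ≤ 1 ∧ toWeakSpace ℝ X y ∈ U (u (en n).1) (en n).2.1 (en n).2.2 then
      U (u (en n).1) (en n).2.1 (en n).2.2 else univ
  refine ⟨U', fun n => ⟨?_, ?_⟩, fun V hV v hv1 hv2 => ?_⟩
  · simp only [U']; split_ifs
    exacts [hopen _ _ _, isOpen_univ]
  · simp only [U']; split_ifs with h
    exacts [h, ⟨0, by simp, mem_univ _⟩]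
  by_contra! hcon
  obtain ⟨I, δ, hδ, hI⟩ := weak_nhds hV hv2
  let F : X →L[ℝ] (I → ℝ) := ContinuousLinearMap.pi fun i : I => i.1
  have hF : ∀ y : X, ‖F y - F v‖ < δ → toWeakSpace ℝ X y ∈ V := hI
  have near : ∀ (N : ℕ) (w : X), ‖w‖ ≤ 1 → (∀ i, N ≤ i → a w i = 0) → ∀ η > (0:ℝ), ∃ y : X,
      ‖y‖ ≤ 1 ∧ δ ≤ ‖F y - F v‖ ∧ ‖π (Finset.range N) y - w‖ < η := by
    intro N w hw hs η hη
    have hw' : π (Finset.range N) w = w := hrep _ _ fun i hi => hs i (by simpa using hi)
    obtain ⟨m, hm⟩ := exists_nat_one_div_lt (half_pos hη)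
    have hwY : w ∈ closure D := by
      refine hY ?_
      rw [← hw', hπ]
      exact Submodule.sum_mem _ fun i _ =>
        Submodule.smul_mem _ _ (Submodule.subset_span (mem_range_self i))
    obtain ⟨d, d1, d2⟩ := Metric.mem_closure_iff.1 hwY (1 / ((m:ℝ) + 1)) (by positivity)
    obtain ⟨j, rfl⟩ : d ∈ range u := hu' ▸ mem_insert_of_mem _ d1
    obtain ⟨n, hn⟩ := hen (j, N, m)
    obtain ⟨y, y2, y1, y3⟩ := hcon n
    rw [dist_eq_norm] at d2
    have hex : ∃ y : X, ‖y‖ ≤ 1 ∧ toWeakSpace ℝ X y ∈ U (u j) N m :=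
      ⟨w, hw, by simpa only [U, mem_ofPred_eq, LinearEquiv.symm_apply_apply, hw'] using d2⟩
    simp only [U', hn, if_pos hex] at y1
    simp only [mem_ofPred_eq, U, LinearEquiv.symm_apply_apply] at y1
    refine ⟨y, y2, not_lt.1 fun h => y3 (hF y h), ?_⟩
    have := norm_sub_le_norm_sub_add_norm_sub (π (Finset.range N) y) (u j) w
    rw [norm_sub_rev (u j)] at this
    linarith
  let φ : Finset ℕ → X → ℝ := fun A x => ∑ i ∈ A, |a x i| * ‖F (e i)‖
  have hφ1 : ∀ A x, ‖F (π A x)‖ ≤ φ A x := by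
    intro A x
    rw [hπ, map_sum]
    refine (norm_sum_le _ _).trans (le_of_eq (Finset.sum_congr rfl fun i _ => ?_))
    rw [map_smul, norm_smul, Real.norm_eq_abs]
  have hφ2 : ∀ A x, ‖x‖ ≤ 1 → φ A x ≤ ∑ j : I, ‖j.1‖ := by
    intro A x hx
    have h1 : φ A x ≤ ∑ i ∈ A, ∑ j : I, |a x i| * |j.1 (e i)| := by
      refine Finset.sum_le_sum fun i _ => ?_
      rw [← Finset.mul_sum]
      refine mul_le_mul_of_nonneg_left ?_ (abs_nonneg _)
      refine (pi_norm_le_iff_of_nonneg (Finset.sum_nonneg fun _ _ => abs_nonneg _)).2 fun j => ?_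
      exact Finset.single_le_sum (f := fun j : I => |j.1 (e i)|) (fun _ _ => abs_nonneg _)
        (Finset.mem_univ j)
    rw [Finset.sum_comm] at h1
    refine h1.trans (Finset.sum_le_sum fun j _ => ?_)
    let ε : ℕ → ℝ := fun i => if 0 ≤ a x i * j.1 (e i) then 1 else -1
    have h2 : ∑ i ∈ A, |a x i| * |j.1 (e i)| = j.1 (∑ i ∈ A, (ε i * a x i) • e i) := by
      rw [map_sum]
      refine Finset.sum_congr rfl fun i _ => ?_
      rw [← abs_mul, map_smul, smul_eq_mul, mul_assoc]
      simp only [ε]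
      split_ifs with h
      · rw [abs_of_nonneg h, one_mul]
      · rw [abs_of_neg (not_le.1 h), neg_one_mul]
    rw [h2]
    refine (le_abs_self _).trans (j.1.unit_le_opNorm _ ?_)
    exact (hun A (a x) ε fun i => by simp only [ε]; split_ifs <;> simp).trans ((sup2 A x).trans hx)
  have block : ∀ (M : ℕ) (w : X), ‖w‖ ≤ 1 → (∀ i, M ≤ i → a w i = 0) → ‖F w - F v‖ < δ / 2 →
      ∀ η > (0:ℝ), η * (‖F‖ + 1) ≤ δ / 8 → ∀ N : ℕ, ∃ L, ∃ z : X, (∀ i ∉ Finset.Ico (M + N) L, a z i = 0) ∧
        ‖w + z‖ ≤ 1 + η ∧ δ / 4 ≤ φ (Finset.Ico (M + N) L) z := by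
    intro M w hw hs hv η hη hη' N
    obtain ⟨y, y1, y2, y3⟩ := near (M + N) w hw (fun i hi => hs i (by omega)) η hη
    obtain ⟨L, l1, l2⟩ := ((Metric.tendsto_nhds.1 (ha y).tendsto_sum_nat η hη).and
      (eventually_ge_atTop (M + N))).exists
    rw [dist_eq_norm, ← hπ] at l1
    have z1 : π (Finset.Ico (M + N) L) y = π (Finset.range L) y - π (Finset.range (M + N)) y :=
      Finset.sum_Ico_eq_sub _ l2
    have z2 : ∀ i ∉ Finset.Ico (M + N) L, a (π (Finset.Ico (M + N) L) y) i = 0 := by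
      intro i hi; rw [hπ, hfin]; exact if_neg hi
    refine ⟨L, _, z2, ?_, ?_⟩
    · rw [z1, show w + (π (Finset.range L) y - π (Finset.range (M + N)) y) =
        π (Finset.range L) y - (π (Finset.range (M + N)) y - w) by abel]
      linarith [norm_sub_le (π (Finset.range L) y) (π (Finset.range (M + N)) y - w),
        sup2 (Finset.range L) y]
    · refine le_trans ?_ (hφ1 _ _)
      rw [hrep _ _ z2, z1]
      generalize π (Finset.range L) y = p at *
      generalize π (Finset.range (M + N)) y = q at *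
      have h3 : F y - F v = F (p - q) - F (p - y) + F (q - w) + (F w - F v) := by
        simp only [map_sub]; abel
      have h4 := norm_add₃_le (a := F (p - q) - F (p - y)) (b := F (q - w)) (c := F w - F v)
      have h5 := norm_sub_le (F (p - q)) (F (p - y))
      have h6 := (F.le_opNorm (p - y)).trans (mul_le_mul_of_nonneg_left l1.le (norm_nonneg _))
      have h7 := (F.le_opNorm (q - w)).trans (mul_le_mul_of_nonneg_left y3.le (norm_nonneg _))
      rw [← h3] at h4
      nlinarith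
  have grow : ∀ k : ℕ, ∃ M, ∃ w : X, ‖w‖ ≤ 1 ∧ (∀ i, M ≤ i → a w i = 0) ∧ ‖F w - F v‖ < δ / 2 ∧
      k * (δ / 8) ≤ φ (Finset.range M) w := by
    intro k
    induction k with
    | zero =>
      have t1 := (F.continuous.tendsto v).comp (ha v).tendsto_sum_nat
      obtain ⟨M, hM⟩ := (Metric.tendsto_nhds.1 t1 (δ / 2) (half_pos hδ)).exists
      refine ⟨M, π (Finset.range M) v, (sup2 _ _).trans hv1, fun i hi => ?_, by
        rw [dist_eq_norm] at hM; exact hM, ?_⟩
      · rw [hπ, hfin]; exact if_neg (by simpa using hi)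
      · simp only [Nat.cast_zero, zero_mul]
        exact Finset.sum_nonneg fun _ _ => by positivity
    | succ k ih =>
      obtain ⟨M, w, w1, w2, w3, w4⟩ := ih
      have hFp : 0 < ‖F‖ + 1 := by positivity
      obtain ⟨η, hη, e1, e2, e3⟩ : ∃ η > (0:ℝ), η * (‖F‖ + 1) ≤ δ / 8 ∧
          η * (‖F‖ + 1) < δ / 2 - ‖F w - F v‖ ∧ η * (k + 1) ≤ 1 := by
        have t0 : ∀ c : ℝ, Tendsto (fun η : ℝ => η * c) (𝓝[>] 0) (𝓝 0) := fun c => by
          simpa using (tendsto_id.mul_const c (x := 𝓝 (0:ℝ))).mono_left nhdsWithin_le_nhds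
        obtain ⟨η, ⟨⟨h1, h2⟩, h3⟩, h4⟩ := (((((t0 (‖F‖ + 1)).eventually
          (ge_mem_nhds (show 0 < δ / 8 by positivity))).and ((t0 (‖F‖ + 1)).eventually
          (gt_mem_nhds (show 0 < δ / 2 - ‖F w - F v‖ by linarith)))).and ((t0 (k + 1)).eventually
          (ge_mem_nhds one_pos))).and self_mem_nhdsWithin).exists
        exact ⟨η, h4, h1, h2, h3⟩
      choose L z z1 z2 z3 using block M w w1 w2 w3 η hη e1
      obtain ⟨p, -, ψ, hψ, hp⟩ := tendsto_subseq_of_bounded
        (Metric.isBounded_closedBall (x := (0 : I → ℝ)) (r := ‖F‖ * (2 + η))) (x := fun N => F (z N))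
        (fun N => mem_closedBall_zero_iff.2 ((F.le_opNorm _).trans (by
          have := norm_sub_le (w + z N) w
          rw [add_sub_cancel_left] at this
          exact mul_le_mul_of_nonneg_left (by linarith [z2 N]) (norm_nonneg _))))
      have hev := Metric.tendsto_nhds.1 hp η hη
      obtain ⟨n1, h1⟩ := hev.exists
      obtain ⟨n2, h2, h3⟩ := (hev.and (hψ.tendsto_atTop.eventually_ge_atTop (L (ψ n1)))).exists
      simp only [Function.comp, dist_eq_norm] at h1 h2
      generalize ψ n1 = N1 at *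
      generalize ψ n2 = N2 at *
      have s1 := z1 N1; have s2 := z1 N2
      simp only [Finset.mem_Ico] at s1 s2
      set ρ : ℝ := (1 + η)⁻¹ with hρ
      have hρ0 : 0 < ρ := by positivity
      have hρ1 : ρ * (1 + η) = 1 := inv_mul_cancel₀ (by positivity)
      set x := w + (1 / 2 : ℝ) • (z N1 + (-1 : ℝ) • z N2) with hx
      have hax : ∀ i, a (ρ • x) i = ρ * (a w i + (1 / 2) * (a (z N1) i + (-1) * a (z N2) i)) := by
        intro i; simp only [hx, hsm, hadd, Pi.smul_apply, Pi.add_apply, smul_eq_mul]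
      have hx1 : ‖x‖ ≤ 1 + η := by
        have k1 := refl (Finset.Ico (M + N2) (L N2)) (w + z N2)
        rw [map_add, hrep _ _ (z1 N2), hzero _ w (fun i hi => w2 i (by
          have := (Finset.mem_Ico.1 hi).1; omega))] at k1
        have k2 : (2:ℝ) • x = (w + z N1) + (w + z N2 - (2:ℝ) • (0 + z N2)) := by rw [hx]; module
        have k3 := norm_add_le (w + z N1) (w + z N2 - (2:ℝ) • (0 + z N2))
        rw [← k2, norm_smul, Real.norm_two] at k3
        linarith [z2 N1, z2 N2]
      refine ⟨M + L N1 + L N2, ρ • x, ?_, fun i hi => ?_, ?_, ?_⟩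
      · rw [norm_smul, Real.norm_of_nonneg hρ0.le]; nlinarith
      · rw [hax, w2 i (by omega), s1 i (by omega), s2 i (by omega)]; simp
      · have k1 : F (ρ • x) - F v = (F w - F v) + (1 / 2 : ℝ) • ((F (z N1) - p) - (F (z N2) - p))
            - (1 - ρ) • F x := by
          simp only [hx, map_add, map_smul]; module
        have k2 := norm_sub_le ((F w - F v) + (1 / 2 : ℝ) • ((F (z N1) - p) - (F (z N2) - p)))
          ((1 - ρ) • F x)
        have k3 := norm_add_le (F w - F v) ((1 / 2 : ℝ) • ((F (z N1) - p) - (F (z N2) - p)))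
        have k4 := norm_sub_le (F (z N1) - p) (F (z N2) - p)
        have k5 := (F.le_opNorm x).trans (mul_le_mul_of_nonneg_left hx1 (norm_nonneg _))
        have k6 : 0 ≤ 1 - ρ := by nlinarith
        rw [norm_smul, Real.norm_of_nonneg k6] at k2
        rw [norm_smul, Real.norm_of_nonneg (by norm_num)] at k3
        have k7 : (1 - ρ) * ‖F x‖ ≤ η * ‖F‖ := by
          calc (1 - ρ) * ‖F x‖ ≤ (1 - ρ) * (‖F‖ * (1 + η)) := mul_le_mul_of_nonneg_left k5 k6
            _ = η * ‖F‖ := by linear_combination (-‖F‖) * hρ1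
        rw [k1]; linarith
      · have d1 : Disjoint (Finset.range M) (Finset.Ico (M + N1) (L N1)) := by
          rw [Finset.disjoint_left]; intro i h h'; simp at h h'; omega
        have d2 : Disjoint (Finset.range M ∪ Finset.Ico (M + N1) (L N1))
            (Finset.Ico (M + N2) (L N2)) := by
          rw [Finset.disjoint_left]; intro i h h'; simp at h h'; omega
        have k1 : φ (Finset.range M ∪ Finset.Ico (M + N1) (L N1) ∪ Finset.Ico (M + N2) (L N2)) (ρ • x)
            ≤ φ (Finset.range (M + L N1 + L N2)) (ρ • x) := by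
          refine Finset.sum_le_sum_of_subset_of_nonneg (fun i hi => ?_) fun _ _ _ => by positivity
          simp at hi ⊢; omega
        have k2 : φ (Finset.range M ∪ Finset.Ico (M + N1) (L N1) ∪ Finset.Ico (M + N2) (L N2)) (ρ • x)
            = ρ * (φ (Finset.range M) w + 1 / 2 * φ (Finset.Ico (M + N1) (L N1)) (z N1) +
              1 / 2 * φ (Finset.Ico (M + N2) (L N2)) (z N2)) := by
          simp only [φ]
          rw [Finset.sum_union d2, Finset.sum_union d1, mul_add, mul_add]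
          simp only [Finset.mul_sum]
          congr 1
          · congr 1
            · refine Finset.sum_congr rfl fun i hi => ?_
              have := Finset.mem_range.1 hi
              rw [hax, s1 i (by omega), s2 i (by omega)]
              simp [abs_mul, abs_of_pos hρ0, mul_assoc]
            · refine Finset.sum_congr rfl fun i hi => ?_
              have := Finset.mem_Ico.1 hi
              rw [hax, w2 i (by omega), s2 i (by omega)]
              simp [abs_mul, abs_of_pos hρ0, mul_assoc]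
          · refine Finset.sum_congr rfl fun i hi => ?_
            have := Finset.mem_Ico.1 hi
            rw [hax, w2 i (by omega), s1 i (by omega)]
            simp [abs_mul, abs_of_pos hρ0, mul_assoc]
        refine le_trans ?_ k1
        rw [k2, hρ, le_inv_mul_iff₀ (by positivity)]
        push_cast
        nlinarith [z3 N1, z3 N2]
  obtain ⟨k, hk⟩ := exists_nat_gt ((∑ j : I, ‖j.1‖) / (δ / 8))
  obtain ⟨M, w, w1, -, -, w4⟩ := grow k
  rw [div_lt_iff₀ (by positivity)] at hk
  linarith [hφ2 (Finset.range M) w w1]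

end Pool.Agent.H.MP_53fbd4_an
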